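import Pool.Agent.Q276.HL.Stm2
import Pool.Agent.W349.HZ.LAT

/-! Project HL, part REDL: the reduction for smaller `x` (after `Pool.Agent.Q124.HL.red4`). -/

set_option autoImplicit false

namespace Pool.Agent.Q135.HL

open Pool.Agent.Q276.HL

theorem redl (hGDS : StmtGDS) (hGDI : StmtGDI) (hGDC : StmtGDC) : StmtREDL := by
  intro R hR x y A B hxy hy hA hB hx
  have hR0 : 0 < R := by linarith
  have hR1 : 1 ≤ R := by linarith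
  have hx0 : (0 : ℝ) ≤ (x : ℝ) := le_trans (by positivity) hx
  have hRx : R ^ 2 ≤ (x : ℝ) := by
    refine le_trans ?_ hx
    exact pow_le_pow_right₀ hR1 (by norm_num)
  have hαR : R ≤ √(x : ℝ) := Real.le_sqrt_of_sq_le hRx
  have hα0 : 0 < √(x : ℝ) := lt_of_lt_of_le hR0 hαR
  have hα2 : √(x : ℝ) ^ 2 = (x : ℝ) := Real.sq_sqrt hx0
  have hW : 1 ≤ √(x : ℝ) / R := by rwa [le_div_iff₀ hR0, one_mul]
  have hV : 1 ≤ √(√(x : ℝ) / R) := by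
    rw [Real.one_le_sqrt]
    exact hW
  have hV2 : √(√(x : ℝ) / R) ^ 2 * R = √(x : ℝ) := by
    rw [Real.sq_sqrt (by linarith), div_mul_cancel₀ _ hR0.ne']
  obtain ⟨i, hi1, hi2⟩ := exists_nat_pow_near hV (one_lt_two : (1 : ℝ) < 2)
  obtain ⟨u₁, v₁, u₂, v₂, j, hdet, hv1, hu, hvV, hs1, hs2⟩ :=
    Pool.Agent.W349.HZ.LAT.t (√(x : ℝ)) (√(√(x : ℝ) / R)) hV
  have hT : (1 : ℝ) / 2 ≤ 2 ^ j / 2 := by
    have : (1 : ℝ) ≤ 2 ^ j := one_le_pow₀ (by norm_num)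
    linarith
  have hV0 : (1 : ℝ) ≤ 2 ^ i := one_le_pow₀ (by norm_num)
  have hi3 : √(√(x : ℝ) / R) < 2 * 2 ^ i := by
    rw [pow_succ] at hi2
    linarith
  have g1 := hGDS R (√(x : ℝ)) (√(√(x : ℝ) / R)) (2 ^ i) (2 ^ j / 2) hR hα0 hV2 hV0 hi1 hi3 hT
    x y A B hα2 hy hxy hA hB u₁ v₁ u₂ v₂ hdet hv1 hs1 hs2
  have g2 := hGDC R (√(x : ℝ)) (√(√(x : ℝ) / R)) (2 ^ i) (2 ^ j / 2) hR hα0 hV2 hV0 hi1 hi3 hT
    x y A hα2 u₁ v₁ u₂ v₂ hdet hv1 hs1 hs2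
  have g3 := hGDI x y A B u₁ v₁ u₂ v₂ hxy hdet
  exact ⟨i, j, _, _, _, _, _, _, _, hi1, hi2, g1, g2, g3.1, g3.2⟩

end Pool.Agent.Q135.HL
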